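import Pool.Agent.Q9.KB.G

/-!
# Classification of the (n/2)-bent Boolean functions

`n = 2 m`, coordinates are numbered from `0`; a Boolean function is a map
`f : (Fin (2 * m) → ZMod 2) → ZMod 2`.

The theorem: for every even `n ≥ 2` the `(n/2)`-bent functions are exactly the quadratic functions
`f(x) = ∑_{i<j, i,j ∈ R} x_i x_j + ∑_{i<j, i,j ∉ R} x_i x_j + ∑ a_i x_i + c` with a set `R` of even
size.  For `n ≥ 4` the same description holds for the `k`-bent functions with any `2 ≤ k ≤ n/2`; in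
particular all these classes coincide.
-/

set_option autoImplicit false

namespace Pool.Agent.Results.MP_0e3175_co.Classification

open Finset

/-- `u_i(x) = x_{2i-1} ⊕ x_{2i}` (coordinates and `i` numbered from `1`), which is
`x_{2i} + x_{2i+1}` when coordinates and `i` are numbered from `0`. -/
def pairSum {m : ℕ} (i : Fin m) (x : Fin (2 * m) → ZMod 2) : ZMod 2 :=
  x ⟨2 * i, by omega⟩ + x ⟨2 * i + 1, by omega⟩

/-- The form `⟨x,y⟩_k = ⟨x,y⟩ ⊕ ⨁_{i ≤ j ≤ k} u_i(x) u_j(x) u_i(y) u_j(y)` (with `i, j` numbered from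
`0` the range is `i ≤ j < k`). -/
def form {m : ℕ} (k : ℕ) (x y : Fin (2 * m) → ZMod 2) : ZMod 2 :=
  ∑ i, x i * y i +
    ∑ i : Fin m, ∑ j : Fin m,
      if i ≤ j ∧ (j : ℕ) < k then pairSum i x * pairSum j x * pairSum i y * pairSum j y else 0

/-- The sign `(-1)^a`. -/
def sign (a : ZMod 2) : ℤ := if a = 0 then 1 else -1

/-- The `k`-Walsh-Hadamard transform `W_f^{(k)}(y) = ∑_x (-1)^{f(x) + ⟨x,y⟩_k}`. -/
def walsh {m : ℕ} (k : ℕ) (f : (Fin (2 * m) → ZMod 2) → ZMod 2) (y : Fin (2 * m) → ZMod 2) : ℤ :=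
  ∑ x, sign (f x + form k x y)

/-- `k`-bent functions of `n = 2 m` variables: `W_{f∘π}^{(j)}(y) = ± 2^{n/2}` for every permutation `π`
of the coordinates, every `1 ≤ j ≤ k` and every `y`. -/
def IsKBent {m : ℕ} (k : ℕ) (f : (Fin (2 * m) → ZMod 2) → ZMod 2) : Prop :=
  ∀ π : Equiv.Perm (Fin (2 * m)), ∀ j, 1 ≤ j → j ≤ k → ∀ y,
    walsh j (fun x => f (fun i => x (π i))) y = 2 ^ m ∨
      walsh j (fun x => f (fun i => x (π i))) y = -2 ^ m

/-- The explicit class. -/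
def IsExplicit {m : ℕ} (f : (Fin (2 * m) → ZMod 2) → ZMod 2) : Prop :=
  ∃ (R : Finset (Fin (2 * m))) (a : Fin (2 * m) → ZMod 2) (c : ZMod 2), Even R.card ∧
    ∀ x, f x = (∑ i, ∑ j, if i < j ∧ (i ∈ R ↔ j ∈ R) then x i * x j else 0) +
      ∑ i, a i * x i + c

/-- **Classification.**  For every even `n = 2 m ≥ 2` a Boolean function is `(n/2)`-bent iff it is
`∑_{i<j, i,j ∈ R} x_i x_j + ∑_{i<j, i,j ∉ R} x_i x_j + ∑ a_i x_i + c` for a set `R` of even size; and
for every `2 ≤ k ≤ n/2` it is `k`-bent iff it is such a function. -/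
theorem result (m : ℕ) (hm : 1 ≤ m) (f : (Fin (2 * m) → ZMod 2) → ZMod 2) :
    (IsKBent m f ↔ IsExplicit f) ∧ ∀ k, 2 ≤ k → k ≤ m → (IsKBent k f ↔ IsExplicit f) :=
  Q9.KB.classification m hm f

end Pool.Agent.Results.MP_0e3175_co.Classification
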